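import Mathlib

/-! Several complex variables: a complex differentiable function on an open subset of a
finite-dimensional complex normed space is smooth. -/

set_option autoImplicit false

open Set Metric Complex Filter Topology MeasureTheory
open scoped ContDiff

namespace Pool.Agent.Lib.SCV

variable {E : Type} [NormedAddCommGroup E] [NormedSpace ℂ E]

lemma line_diffOn {f : E → ℂ} {U : Set E} (hf : DifferentiableOn ℂ f U) (y w : E) (ρ : ℝ)
    (h : ∀ t : ℂ, ‖t‖ ≤ ρ → y + t • w ∈ U) :
    DifferentiableOn ℂ (fun t : ℂ => f (y + t • w)) (closedBall 0 ρ) := by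
  refine hf.comp (f := fun t : ℂ => y + t • w) (by fun_prop) ?_
  intro t ht
  exact h t (by simpa using ht)

lemma line_deriv {f : E → ℂ} {y : E} (hf : DifferentiableAt ℂ f y) (w : E) :
    deriv (fun t : ℂ => f (y + t • w)) 0 = fderiv ℂ f y w := by
  have h1 : HasDerivAt (fun t : ℂ => y + t • w) w 0 := by
    simpa using ((hasDerivAt_id (0 : ℂ)).smul_const w).const_add y
  have h2 : HasFDerivAt f (fderiv ℂ f y) ((fun t : ℂ => y + t • w) 0) := by
    simpa using hf.hasFDerivAt
  exact (h2.comp_hasDerivAt 0 h1).deriv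

/-- Cauchy estimate for the Frechet derivative. -/
lemma norm_fderiv_le {f : E → ℂ} {y : E} {r M : ℝ} (hr : 0 < r)
    (hf : DifferentiableOn ℂ f (closedBall y r)) (hM : ∀ x ∈ closedBall y r, ‖f x‖ ≤ M) :
    ‖fderiv ℂ f y‖ ≤ M / r := by
  have hM0 : 0 ≤ M := (norm_nonneg _).trans (hM y (mem_closedBall_self hr.le))
  have hfy : DifferentiableAt ℂ f y := hf.differentiableAt (closedBall_mem_nhds y hr)
  refine ContinuousLinearMap.opNorm_le_bound _ (by positivity) fun w => ?_
  by_cases hw : w = 0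
  · simp [hw]
  have hw' : 0 < ‖w‖ := norm_pos_iff.2 hw
  have hmem : ∀ t : ℂ, ‖t‖ ≤ r / ‖w‖ → y + t • w ∈ closedBall y r := by
    intro t ht
    rw [mem_closedBall, dist_eq_norm, add_sub_cancel_left, norm_smul]
    rwa [le_div_iff₀ hw'] at ht
  have hd := line_diffOn hf y w (r / ‖w‖) hmem
  have := Complex.norm_deriv_le_of_forall_mem_sphere_norm_le (c := 0) (R := r / ‖w‖) (C := M)
    (f := fun t : ℂ => f (y + t • w)) (by positivity)
    (hd.mono closure_ball_subset_closedBall).diffContOnCl (by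
      intro t ht
      exact hM _ (hmem t (by simpa using (mem_sphere_zero_iff_norm.1 ht).le)))
  rw [line_deriv hfy] at this
  refine this.trans (le_of_eq ?_)
  field_simp

lemma differentiableOn_fderiv_apply [FiniteDimensional ℂ E] {f : E → ℂ} {U : Set E}
    (hU : IsOpen U) (hf : DifferentiableOn ℂ f U) (v : E) :
    DifferentiableOn ℂ (fun z => fderiv ℂ f z v) U := by
  intro z0 hz0
  refine DifferentiableAt.differentiableWithinAt ?_
  have hc : ContinuousAt f z0 := (hf.differentiableAt (hU.mem_nhds hz0)).continuousAt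
  obtain ⟨ε, hε, hball⟩ : ∃ ε > 0, ∀ x ∈ ball z0 ε, x ∈ U ∧ ‖f x‖ ≤ ‖f z0‖ + 1 := by
    have h1 : ∀ᶠ x in 𝓝 z0, x ∈ U ∧ ‖f x‖ ≤ ‖f z0‖ + 1 := by
      refine Filter.Eventually.and (hU.mem_nhds hz0) ?_
      have := hc.norm.eventually (ge_mem_nhds (lt_add_one ‖f z0‖))
      exact this
    exact Metric.eventually_nhds_iff_ball.1 h1
  set r := ε / 4 with hr
  have hr0 : 0 < r := by positivity
  set M := ‖f z0‖ + 1
  set δ := r / (‖v‖ + 1) with hδ
  have hδ0 : 0 < δ := by positivity
  have hin : ∀ x ∈ ball z0 r, ∀ t : ℂ, ‖t‖ ≤ δ → x + t • v ∈ ball z0 (2 * r) := by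
    intro x hx t ht
    rw [mem_ball, dist_eq_norm] at hx ⊢
    have h1 : ‖t • v‖ ≤ r := by
      rw [norm_smul]
      calc ‖t‖ * ‖v‖ ≤ δ * (‖v‖ + 1) := by gcongr; linarith
        _ = r := by rw [hδ]; field_simp
    calc ‖x + t • v - z0‖ = ‖(x - z0) + t • v‖ := by congr 1; abel
      _ ≤ ‖x - z0‖ + ‖t • v‖ := norm_add_le _ _
      _ < 2 * r := by linarith
  have hsub : ∀ y ∈ ball z0 (2 * r), closedBall y r ⊆ ball z0 ε := by
    intro y hy x hx
    rw [mem_ball] at hy ⊢
    rw [mem_closedBall] at hx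
    have := dist_triangle x y z0
    linarith
  have hbU : ∀ y ∈ ball z0 (2 * r), y ∈ U := fun y hy =>
    (hball y (hsub y hy (mem_closedBall_self hr0.le))).1
  have hbd : ∀ y ∈ ball z0 (2 * r), ‖fderiv ℂ f y‖ ≤ M / r := by
    intro y hy
    exact norm_fderiv_le hr0 (hf.mono fun x hx => (hball x (hsub y hy hx)).1)
      (fun x hx => (hball x (hsub y hy hx)).2)
  have hform : ∀ x ∈ ball z0 r, fderiv ℂ f x v = (2 * Real.pi * I)⁻¹ •
      ∫ θ in (0 : ℝ)..2 * Real.pi, (deriv (circleMap 0 δ) θ * (1 / (circleMap 0 δ θ - 0) ^ 2)) •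
        f (x + circleMap 0 δ θ • v) := by
    intro x hx
    have hd := line_diffOn hf x v δ (fun t ht => hbU _ (hin x hx t ht))
    have := hd.deriv_eq_smul_circleIntegral hδ0
    have hxU : x ∈ U := by simpa using hbU _ (hin x hx 0 (by simpa using hδ0.le))
    rw [line_deriv (hf.differentiableAt (hU.mem_nhds hxU))] at this
    simp only [circleIntegral, smul_smul] at this
    rw [this, smul_smul, inv_mul_cancel₀ two_pi_I_ne_zero, one_smul]
  have hnorm : ∀ θ : ℝ, ‖circleMap 0 δ θ‖ ≤ δ := by
    intro θ; simp [abs_of_pos hδ0]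
  set c : ℝ → ℂ := fun θ => deriv (circleMap 0 δ) θ * (1 / (circleMap 0 δ θ - 0) ^ 2) with hcdef
  have hccont : Continuous c := by
    simp only [hcdef, deriv_circleMap]
    refine Continuous.mul (by fun_prop) (Continuous.div continuous_const (by fun_prop) ?_)
    intro θ
    simpa using circleMap_ne_center hδ0.ne' (c := 0) (θ := θ)
  have hcont : ∀ x ∈ ball z0 r, Continuous fun θ : ℝ => c θ • f (x + circleMap 0 δ θ • v) := by
    intro x hx
    refine hccont.smul ?_
    refine hf.continuousOn.comp_continuous (by fun_prop) fun θ => hbU _ (hin x hx _ (hnorm θ))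
  have key : DifferentiableAt ℂ (fun x => ∫ θ in (0 : ℝ)..2 * Real.pi,
      c θ • f (x + circleMap 0 δ θ • v)) z0 := by
    let _ : MeasurableSpace E := borel E
    have : BorelSpace E := ⟨rfl⟩
    let _ : MeasurableSpace (E →L[ℂ] ℂ) := borel _
    have : BorelSpace (E →L[ℂ] ℂ) := ⟨rfl⟩
    refine (intervalIntegral.hasFDerivAt_integral_of_dominated_of_fderiv_le (𝕜 := ℂ)
      (F' := fun x θ => c θ • fderiv ℂ f (x + circleMap 0 δ θ • v))
      (bound := fun θ => ‖c θ‖ * (M / r)) (ball_mem_nhds z0 hr0) ?_ ?_ ?_ ?_ ?_ ?_).differentiableAt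
    · filter_upwards [ball_mem_nhds z0 hr0] with x hx using (hcont x hx).aestronglyMeasurable
    · exact (hcont z0 (mem_ball_self hr0)).intervalIntegrable _ _
    · refine hccont.aestronglyMeasurable.smul ?_
      refine Measurable.aestronglyMeasurable ?_
      exact (measurable_fderiv ℂ f).comp (Continuous.measurable (by fun_prop))
    · refine Eventually.of_forall fun θ _ x hx => ?_
      rw [norm_smul]
      gcongr
      exact hbd _ (hin x hx _ (hnorm θ))
    · exact (hccont.norm.mul continuous_const).intervalIntegrable _ _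
    · refine Eventually.of_forall fun θ _ x hx => ?_
      have h1 : HasFDerivAt f (fderiv ℂ f (x + circleMap 0 δ θ • v)) (x + circleMap 0 δ θ • v) :=
        (hf.differentiableAt (hU.mem_nhds (hbU _ (hin x hx _ (hnorm θ))))).hasFDerivAt
      have h2 := (h1.comp x ((hasFDerivAt_id x).add_const (circleMap 0 δ θ • v))).const_smul (c θ)
      simpa [Function.comp_def, Pi.smul_def] using h2
  refine (key.const_smul ((2 * Real.pi * I)⁻¹)).congr_of_eventuallyEq ?_
  filter_upwards [ball_mem_nhds z0 hr0] with x hx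
  exact hform x hx

theorem contDiffOn_nat [FiniteDimensional ℂ E] {U : Set E} (hU : IsOpen U) (n : ℕ) :
    ∀ f : E → ℂ, DifferentiableOn ℂ f U → ContDiffOn ℂ n f U := by
  induction n with
  | zero => intro f hf; simpa using hf.continuousOn
  | succ n ih =>
    intro f hf
    rw [Nat.cast_succ, contDiffOn_succ_iff_fderiv_of_isOpen hU]
    refine ⟨hf, by simp, ?_⟩
    rw [contDiffOn_clm_apply]
    intro v
    exact ih _ (differentiableOn_fderiv_apply hU hf v)

/-- Holomorphic functions of several variables are smooth. -/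
theorem contDiffOn_of_differentiableOn [FiniteDimensional ℂ E] {U : Set E} (hU : IsOpen U)
    {f : E → ℂ} (hf : DifferentiableOn ℂ f U) : ContDiffOn ℂ ∞ f U :=
  contDiffOn_infty.2 fun n => contDiffOn_nat hU n f hf

end Pool.Agent.Lib.SCV
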